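import Pool.Agent.V1155.ShipsF

/-!
The toughest density for families of two 3-ships is one half.
-/

namespace Pool.Agent.Results.MP_e24151_co.ToughestHalf

open Finset Pool.Agent.V1155.Ships

/-- A shooting pattern is (the indicator sequence of) a set of integers `X`; it hits the ship `S`
if every translate of `S` contains a shot. -/
def Hits (X : Set ℤ) {k : ℕ} (S : Fin k → ℤ) : Prop := ∀ t : ℤ, ∃ j : Fin k, t + S j ∈ X

/-- `X` has density `δ`: the averages over `[-N, N]` of its indicator sequence tend to `δ`. -/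
def HasDensity (X : Set ℤ) (δ : ℝ) : Prop :=
  Filter.Tendsto (fun N : ℕ => 1 / (2 * (N : ℝ) + 1) *
    ∑ i ∈ Finset.Icc (-(N : ℤ)) (N : ℤ), X.indicator (fun _ => (1 : ℝ)) i)
    Filter.atTop (nhds δ)

/-- The least density needed to hit all ships of the family `F`. -/
noncomputable def density {n k : ℕ} (F : Fin n → Fin k → ℤ) : ℝ :=
  sInf {δ : ℝ | ∃ X : Set ℤ, (∀ i, Hits X (F i)) ∧ HasDensity X δ}

/-- The set of the numbers `density F` over all families `F` of `n` many `k`-ships. -/
def values (n k : ℕ) : Set ℝ :=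
  {r : ℝ | ∃ F : Fin n → Fin k → ℤ, (∀ i, StrictMono (F i)) ∧ r = density F}

/-- The toughest density for `n` ships of size `k`. -/
noncomputable def M (n k : ℕ) : ℝ := sSup (values n k)

/-! ### periodic patterns have a density -/

theorem window_const (f : ℤ → ℝ) (s : ℕ) (hf : ∀ x, f (x + s) = f x) (a : ℤ) :
    ∑ i ∈ range s, f (a + i) = ∑ i ∈ range s, f i := by
  have step : ∀ a : ℤ, ∑ i ∈ range s, f (a + 1 + i) = ∑ i ∈ range s, f (a + i) := by
    intro a
    have h1 : ∑ i ∈ range (s + 1), f (a + i) = ∑ i ∈ range s, f (a + i) + f (a + s) :=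
      Finset.sum_range_succ _ _
    have h2 : ∑ i ∈ range (s + 1), f (a + i) = ∑ i ∈ range s, f (a + ((i + 1 : ℕ) : ℤ)) + f (a + ((0 : ℕ) : ℤ)) :=
      Finset.sum_range_succ' _ _
    have h3 : ∑ i ∈ range s, f (a + ((i + 1 : ℕ) : ℤ)) = ∑ i ∈ range s, f (a + 1 + i) := by
      apply Finset.sum_congr rfl
      intro i _
      congr 1
      push_cast
      ring
    rw [h3] at h2
    rw [hf] at h1
    have e : f (a + ((0 : ℕ) : ℤ)) = f a := by simp
    rw [e] at h2
    linarith
  induction a using Int.induction_on with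
  | zero => simp
  | succ i ih => rw [step]; exact ih
  | pred i ih =>
    rw [← step]
    have : -(i : ℤ) - 1 + 1 = -i := by ring
    rw [this]
    exact ih

theorem disc (f : ℤ → ℝ) (s : ℕ) (hs : 0 < s) (hf : ∀ x, f (x + s) = f x)
    (h0 : ∀ x, 0 ≤ f x) (h1 : ∀ x, f x ≤ 1) (n : ℕ) : ∀ a : ℤ,
    |s * ∑ i ∈ range n, f (a + i) - n * ∑ i ∈ range s, f i| ≤ (s : ℝ) * s := by
  induction n using Nat.strong_induction_on with
  | _ n ih =>
    intro a
    by_cases hn : n < s
    · have a1 : 0 ≤ ∑ i ∈ range n, f (a + i) := Finset.sum_nonneg (fun i _ => h0 _)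
      have a2 : ∑ i ∈ range n, f (a + i) ≤ n := by
        calc _ ≤ ∑ i ∈ range n, (1 : ℝ) := Finset.sum_le_sum (fun i _ => h1 _)
          _ = n := by simp
      have b1 : 0 ≤ ∑ i ∈ range s, f i := Finset.sum_nonneg (fun i _ => h0 _)
      have b2 : ∑ i ∈ range s, f (i : ℤ) ≤ s := by
        calc _ ≤ ∑ i ∈ range s, (1 : ℝ) := Finset.sum_le_sum (fun i _ => h1 _)
          _ = s := by simp
      have hns : (n : ℝ) ≤ s := by exact_mod_cast hn.le
      have hn0 : (0 : ℝ) ≤ n := Nat.cast_nonneg n
      rw [abs_le]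
      constructor <;> nlinarith
    · push Not at hn
      obtain ⟨m, rfl⟩ := Nat.exists_eq_add_of_le hn
      rw [Finset.sum_range_add, window_const f s hf a]
      have e : ∑ x ∈ range m, f (a + ((s + x : ℕ) : ℤ)) = ∑ x ∈ range m, f (a + x) := by
        apply Finset.sum_congr rfl
        intro x _
        rw [← hf (a + x)]
        congr 1
        push_cast
        ring
      rw [e]
      have := ih m (by omega) a
      have e2 : (s : ℝ) * (∑ i ∈ range s, f i + ∑ x ∈ range m, f (a + x)) -
          ((s + m : ℕ) : ℝ) * ∑ i ∈ range s, f i =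
          s * ∑ i ∈ range m, f (a + i) - m * ∑ i ∈ range s, f i := by
        push_cast
        ring
      rw [e2]
      exact this

theorem sum_Icc (f : ℤ → ℝ) (N : ℕ) :
    ∑ i ∈ Finset.Icc (-(N : ℤ)) (N : ℤ), f i = ∑ i ∈ range (2 * N + 1), f (-(N : ℤ) + i) := by
  symm
  apply Finset.sum_bij (fun (i : ℕ) _ => -(N : ℤ) + i)
  · intro i hi
    rw [mem_range] at hi
    rw [Finset.mem_Icc]
    omega
  · intro i _ j _ h
    omega
  · intro b hb
    rw [Finset.mem_Icc] at hb
    refine ⟨(b + N).toNat, ?_, ?_⟩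
    · rw [mem_range]
      omega
    · omega
  · intro i _
    rfl

theorem tend_inv : Filter.Tendsto (fun N : ℕ => 1 / (2 * (N : ℝ) + 1)) Filter.atTop (nhds 0) := by
  have h : Filter.Tendsto (fun N : ℕ => 1 / ((N : ℝ) + 1)) Filter.atTop (nhds 0) :=
    tendsto_one_div_add_atTop_nhds_zero_nat
  apply squeeze_zero _ _ h
  · intro N
    positivity
  · intro N
    apply one_div_le_one_div_of_le
    · positivity
    · have : (0 : ℝ) ≤ N := Nat.cast_nonneg N
      linarith

theorem periodic_density (X : Set ℤ) (s : ℕ) (hs : 0 < s) (hX : ∀ x, x + (s : ℤ) ∈ X ↔ x ∈ X) :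
    HasDensity X ((∑ i ∈ range s, X.indicator (fun _ => (1 : ℝ)) (i : ℤ)) / s) := by
  set f : ℤ → ℝ := X.indicator (fun _ => (1 : ℝ)) with hf
  have hper : ∀ x, f (x + s) = f x := by
    intro x
    by_cases hx : x ∈ X
    · rw [hf, Set.indicator_of_mem hx, Set.indicator_of_mem ((hX x).mpr hx)]
    · rw [hf, Set.indicator_of_notMem hx,
        Set.indicator_of_notMem (fun h => hx ((hX x).mp h))]
  have h0 : ∀ x, 0 ≤ f x := by
    intro x
    simp only [hf, Set.indicator]
    split_ifs <;> norm_num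
  have h1 : ∀ x, f x ≤ 1 := by
    intro x
    simp only [hf, Set.indicator]
    split_ifs <;> norm_num
  have hsq : (0 : ℝ) < s := by exact_mod_cast hs
  unfold HasDensity
  rw [← hf]
  rw [tendsto_iff_dist_tendsto_zero]
  have hb : Filter.Tendsto (fun N : ℕ => (s : ℝ) * (1 / (2 * (N : ℝ) + 1))) Filter.atTop (nhds 0) := by
    have := tend_inv.const_mul (s : ℝ)
    rwa [mul_zero] at this
  apply squeeze_zero (fun _ => dist_nonneg) _ hb
  intro N
  rw [Real.dist_eq, sum_Icc]
  have hd := disc f s hs hper h0 h1 (2 * N + 1) (-(N : ℤ))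
  have hN : (0 : ℝ) < 2 * (N : ℝ) + 1 := by positivity
  have e : 1 / (2 * (N : ℝ) + 1) * ∑ i ∈ range (2 * N + 1), f (-(N : ℤ) + i) -
      (∑ i ∈ range s, f i) / s =
      (s * ∑ i ∈ range (2 * N + 1), f (-(N : ℤ) + i) -
        ((2 * N + 1 : ℕ) : ℝ) * ∑ i ∈ range s, f i) / (s * (2 * (N : ℝ) + 1)) := by
    push_cast
    field_simp
  rw [e, abs_div, abs_of_pos (mul_pos hsq hN), div_le_iff₀ (mul_pos hsq hN)]
  have e2 : (s : ℝ) * (1 / (2 * (N : ℝ) + 1)) * (s * (2 * (N : ℝ) + 1)) = s * s := by
    field_simp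
  rw [e2]
  exact hd

/-- Every family of two 3-ships is hit by a pattern of density at most one half. -/
theorem upper (F : Fin 2 → Fin 3 → ℤ) (hF : ∀ i, StrictMono (F i)) :
    ∃ X : Set ℤ, ∃ δ : ℝ, δ ≤ 1 / 2 ∧ (∀ i, Hits X (F i)) ∧ HasDensity X δ := by
  have m0 := hF 0
  have m1 := hF 1
  have l01 : F 0 0 < F 0 1 := m0 (by decide)
  have l12 : F 0 1 < F 0 2 := m0 (by decide)
  have k01 : F 1 0 < F 1 1 := m1 (by decide)
  have k12 : F 1 1 < F 1 2 := m1 (by decide)
  obtain ⟨s, hs, X, hper, hit1, hit2, hcard⟩ := px_all (F 0 1 - F 0 0).natAbs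
    (F 0 1 - F 0 0) (F 0 2 - F 0 0) (F 1 1 - F 1 0) (F 1 2 - F 1 0) le_rfl
    (by omega) (by omega) (by omega) (by omega) (by omega) (by omega)
  have hden := periodic_density {x | X x = true} s hs (by
    intro x
    rw [Set.mem_ofPred_eq, Set.mem_ofPred_eq, hper])
  refine ⟨{x | X x = true}, _, ?_, ?_, hden⟩
  · have hsq : (0 : ℝ) < s := by exact_mod_cast hs
    rw [div_le_iff₀ hsq]
    have e : ∑ i ∈ range s, Set.indicator {x | X x = true} (fun _ => (1 : ℝ)) (i : ℤ) =
        (((range s).filter (fun i : ℕ => X (i : ℤ) = true)).card : ℝ) := by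
      rw [Finset.card_filter]
      push_cast
      apply Finset.sum_congr rfl
      intro i _
      simp only [Set.indicator, Set.mem_ofPred_eq]
    rw [e]
    have : ((2 * ((range s).filter (fun i : ℕ => X (i : ℤ) = true)).card : ℕ) : ℝ) ≤ s := by
      exact_mod_cast hcard
    push_cast at this
    linarith
  · intro i t
    match i with
    | 0 =>
      have := hit1 (t + F 0 0)
      have e0 : t + F 0 0 + 0 = t + F 0 0 := by ring
      have e1 : t + F 0 0 + (F 0 1 - F 0 0) = t + F 0 1 := by ring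
      have e2 : t + F 0 0 + (F 0 2 - F 0 0) = t + F 0 2 := by ring
      rw [e0, e1, e2] at this
      rcases this with h | h | h
      · exact ⟨0, h⟩
      · exact ⟨1, h⟩
      · exact ⟨2, h⟩
    | 1 =>
      have := hit2 (t + F 1 0)
      have e0 : t + F 1 0 + 0 = t + F 1 0 := by ring
      have e1 : t + F 1 0 + (F 1 1 - F 1 0) = t + F 1 1 := by ring
      have e2 : t + F 1 0 + (F 1 2 - F 1 0) = t + F 1 2 := by ring
      rw [e0, e1, e2] at this
      rcases this with h | h | h
      · exact ⟨0, h⟩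
      · exact ⟨1, h⟩
      · exact ⟨2, h⟩

theorem density_nonneg (X : Set ℤ) (δ : ℝ) (h : HasDensity X δ) : 0 ≤ δ := by
  apply ge_of_tendsto' h
  intro N
  apply mul_nonneg (by positivity)
  apply Finset.sum_nonneg
  intro i _
  simp only [Set.indicator]
  split_ifs <;> norm_num

theorem bdd (F : Fin 2 → Fin 3 → ℤ) :
    BddBelow {δ : ℝ | ∃ X : Set ℤ, (∀ i, Hits X (F i)) ∧ HasDensity X δ} :=
  ⟨0, fun δ ⟨X, _, h⟩ => density_nonneg X δ h⟩

theorem density_le (F : Fin 2 → Fin 3 → ℤ) (hF : ∀ i, StrictMono (F i)) : density F ≤ 1 / 2 := by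
  obtain ⟨X, δ, h1, h2, h3⟩ := upper F hF
  exact (csInf_le (bdd F) ⟨X, h2, h3⟩).trans h1

/-! ### a family needing density one half -/

/-- the ships `[0,1,2]` and `[0,1,3]` -/
def F0 : Fin 2 → Fin 3 → ℤ := ![![0, 1, 2], ![0, 1, 3]]

theorem F0_mono : ∀ i, StrictMono (F0 i) := by
  intro i
  rw [Fin.strictMono_iff_lt_succ]
  intro j
  fin_cases i <;> fin_cases j <;> simp [F0]

theorem count (f : ℤ → ℝ) (h01 : ∀ x, f x = 0 ∨ f x = 1)
    (hA : ∀ x, f x = 0 → f (x + 1) = 0 → f (x + 2) = 1 ∧ f (x + 3) = 1) (n : ℕ) :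
    ∀ a : ℤ, (n : ℝ) ≤ 2 * ∑ i ∈ range n, f (a + i) + 2 := by
  have hnn : ∀ (m : ℕ) (a : ℤ), 0 ≤ ∑ i ∈ range m, f (a + i) := by
    intro m a
    apply Finset.sum_nonneg
    intro i _
    rcases h01 (a + i) with h | h <;> rw [h] <;> norm_num
  have shift : ∀ (m : ℕ) (a : ℤ), ∑ i ∈ range (m + 1), f (a + i) = f a + ∑ i ∈ range m, f (a + 1 + i) := by
    intro m a
    rw [Finset.sum_range_succ']
    have e : f (a + ((0 : ℕ) : ℤ)) = f a := by simp
    rw [e, add_comm]
    congr 1
    apply Finset.sum_congr rfl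
    intro i _
    congr 1
    push_cast
    ring
  induction n using Nat.strong_induction_on with
  | _ n ih =>
    intro a
    match n, ih with
    | 0, _ => simp
    | 1, _ =>
      have := hnn 1 a
      push_cast
      linarith
    | 2, _ =>
      have := hnn 2 a
      push_cast
      linarith
    | 3, ih =>
      rw [shift 2 a]
      rcases h01 a with h | h
      · rw [shift 1 (a + 1)]
        rcases h01 (a + 1) with h' | h'
        · rw [shift 0 (a + 1 + 1)]
          have e : a + 1 + 1 = a + 2 := by ring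
          rw [e, (hA a h h').1, h, h']
          simp
          norm_num
        · rw [h, h']
          have := hnn 1 (a + 1 + 1)
          push_cast
          linarith
      · rw [h]
        have := ih 2 (by omega) (a + 1)
        push_cast at this ⊢
        linarith
    | m + 4, ih =>
      rw [shift (m + 3) a]
      rcases h01 a with h | h
      · rw [shift (m + 2) (a + 1)]
        rcases h01 (a + 1) with h' | h'
        · rw [shift (m + 1) (a + 1 + 1), shift m (a + 1 + 1 + 1)]
          have e : a + 1 + 1 = a + 2 := by ring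
          have e3 : a + 2 + 1 = a + 3 := by ring
          rw [e, e3, (hA a h h').1, (hA a h h').2, h, h']
          have := ih m (by omega) (a + 3 + 1)
          push_cast at this ⊢
          linarith
        · rw [h, h']
          have := ih (m + 2) (by omega) (a + 1 + 1)
          push_cast at this ⊢
          linarith
      · rw [h]
        have := ih (m + 3) (by omega) (a + 1)
        push_cast at this ⊢
        linarith

theorem lower (X : Set ℤ) (δ : ℝ) (hit : ∀ i, Hits X (F0 i)) (hd : HasDensity X δ) : 1 / 2 ≤ δ := by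
  classical
  set f : ℤ → ℝ := X.indicator (fun _ => (1 : ℝ)) with hf
  have h01 : ∀ x, f x = 0 ∨ f x = 1 := by
    intro x
    simp only [hf, Set.indicator]
    split_ifs <;> simp
  have hmem : ∀ x, x ∈ X → f x = 1 := by
    intro x hx
    simp only [hf, Set.indicator, if_pos hx]
  have hnot : ∀ x, f x = 0 → x ∉ X := by
    intro x h hx
    rw [hmem x hx] at h
    norm_num at h
  have hA : ∀ x, f x = 0 → f (x + 1) = 0 → f (x + 2) = 1 ∧ f (x + 3) = 1 := by
    intro x h h'
    have n0 := hnot x h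
    have n1 := hnot (x + 1) h'
    constructor
    · obtain ⟨j, hj⟩ := hit 0 x
      fin_cases j
      · simp [F0] at hj
        exact absurd hj n0
      · simp [F0] at hj
        exact absurd hj n1
      · simp [F0] at hj
        exact hmem _ hj
    · obtain ⟨j, hj⟩ := hit 1 x
      fin_cases j
      · simp [F0] at hj
        exact absurd hj n0
      · simp [F0] at hj
        exact absurd hj n1
      · simp [F0] at hj
        exact hmem _ hj
  have hlow : Filter.Tendsto (fun N : ℕ => 1 / 2 - 1 / (2 * (N : ℝ) + 1)) Filter.atTop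
      (nhds (1 / 2)) := by
    have := tend_inv.const_sub (1 / 2)
    rwa [sub_zero] at this
  apply le_of_tendsto_of_tendsto' hlow hd
  intro N
  rw [← hf, sum_Icc]
  have hc := count f h01 hA (2 * N + 1) (-(N : ℤ))
  have hN : (0 : ℝ) < 2 * (N : ℝ) + 1 := by positivity
  push_cast at hc
  rw [one_div_mul_eq_div, le_div_iff₀ hN]
  have e : (1 / 2 - 1 / (2 * (N : ℝ) + 1)) * (2 * (N : ℝ) + 1) = (2 * (N : ℝ) + 1) / 2 - 1 := by
    field_simp
  rw [e]
  linarith

/-- `M^2_3 = 1/2`; moreover the supremum is a maximum. -/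
theorem result : M 2 3 = 1 / 2 ∧ IsGreatest (values 2 3) (1 / 2) := by
  have hg : IsGreatest (values 2 3) (1 / 2) := by
    constructor
    · refine ⟨F0, F0_mono, ?_⟩
      apply le_antisymm
      · obtain ⟨X, δ, _, h2, h3⟩ := upper F0 F0_mono
        unfold density
        refine le_csInf ⟨δ, X, h2, h3⟩ ?_
        rintro δ' ⟨X', h2', h3'⟩
        exact lower X' δ' h2' h3'
      · exact density_le F0 F0_mono
    · rintro r ⟨F, hF, rfl⟩
      exact density_le F hF
  exact ⟨hg.csSup_eq, hg⟩

end Pool.Agent.Results.MP_e24151_co.ToughestHalf
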